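import Pool.Agent.Helper81.XP.StA
import Pool.Agent.Helper81.XP.StB
import Pool.Agent.Helper81.XP.Pj

set_option autoImplicit false

/-!
GDP: traces and reducibility of the normal form.
-/

open Finset
open scoped Pointwise LinearAlgebra.Projectivization

namespace Pool.Agent.Helper48.XP

open Pool.Agent.Helper81.XP

/-- Fricke's formula -/
theorem fricke {K : Type} [Field K] (g h : SL K) :
    tr (ct g h) = tr g ^ 2 + tr h ^ 2 + tr (g * h) ^ 2 - tr g * tr h * tr (g * h) - 2 := by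
  have d1 := det_eq g
  have d2 := det_eq h
  rw [tr_eq (ct g h), tr_eq g, tr_eq h, tr_eq (g * h), ct]
  simp only [Matrix.SpecialLinearGroup.coe_mul, Matrix.SpecialLinearGroup.coe_inv,
      Matrix.adjugate_fin_two, Matrix.mul_apply, Fin.sum_univ_two, Matrix.of_apply,
      Matrix.cons_val_zero, Matrix.cons_val_one, Matrix.cons_val', Matrix.cons_val_fin_one]
  set a := (g : Matrix (Fin 2) (Fin 2) K) 0 0
  set b := (g : Matrix (Fin 2) (Fin 2) K) 0 1
  set c := (g : Matrix (Fin 2) (Fin 2) K) 1 0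
  set d := (g : Matrix (Fin 2) (Fin 2) K) 1 1
  set p := (h : Matrix (Fin 2) (Fin 2) K) 0 0
  set q := (h : Matrix (Fin 2) (Fin 2) K) 0 1
  set r := (h : Matrix (Fin 2) (Fin 2) K) 1 0
  set s := (h : Matrix (Fin 2) (Fin 2) K) 1 1
  linear_combination ((p + s) ^ 2 - 2 * (p * s - q * r)) * d1 + ((a + d) ^ 2 - 2) * d2

theorem vB_coe {K : Type} [Field K] (P : Fin 3 → K) (h : P 2 ≠ 0) :
    (vB P : Matrix (Fin 2) (Fin 2) K) = !![0, P 2; -(P 2)⁻¹, P 1] := by
  have e : vB P = (⟨!![0, P 2; -(P 2)⁻¹, P 1], by simp [Matrix.det_fin_two, h]⟩ : SL K) :=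
    dif_pos h
  rw [e]

theorem vA_coe {K : Type} [Field K] (P : Fin 3 → K) :
    (vA P : Matrix (Fin 2) (Fin 2) K) = !![P 0, -1; 1, 0] := rfl

theorem st_GDP (hCFP : ST_CFP) : ST_GDP := by
  intro K _ _ P hP
  have hA : tr (vA P) = P 0 := by
    rw [tr_eq, vA_coe]; simp
  have hB : tr (vB P) = P 1 := by
    rw [tr_eq, vB_coe P hP]; simp
  have hAB : tr (vA P * vB P) = P 2 + (P 2)⁻¹ := by
    rw [tr_eq, Matrix.SpecialLinearGroup.coe_mul, vA_coe, vB_coe P hP]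
    simp [Matrix.mul_apply, Fin.sum_univ_two]
    ring
  refine ⟨hA, hB, hAB, ?_⟩
  rw [← hCFP K (vA P) (vB P), fricke, hA, hB, hAB]
  have key : kap P = P 2 ^ 2 * ((P 0 ^ 2 + P 1 ^ 2 + (P 2 + (P 2)⁻¹) ^ 2 -
      P 0 * P 1 * (P 2 + (P 2)⁻¹) - 2) - 2) := by
    rw [kap]
    field_simp
    ring
  rw [key, mul_eq_zero, or_iff_right (pow_ne_zero 2 hP), sub_eq_zero]

end Pool.Agent.Helper48.XP
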